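import Mathlib
import Pool.Agent.Results.MP_63e8ca_gt.HFCwNotDuallyDiscrete
import Pool.Agent.Helper292.ForceCH

/-!
# Consistently, some `HFC_w` space is not dually discrete

The forcing language is the one of `Helper292.ForceCH`: a sentence is the set of the conditions
which force it; `CHHolds P` says that `ω₁` many subsets of `ℕ` are all subsets of `ℕ`.
-/

set_option autoImplicit false

namespace Pool.Agent.Results.MP_63e8ca_gt.ForcedNotDuallyDiscrete

open Set Cardinal Pool.Agent.Helper292.ForceCH Q209.DSp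

/-- (1) Some forcing notion forces that `ω₁` is preserved and that the continuum hypothesis holds.
(2) The continuum hypothesis implies that there is an `HFC_w` subspace of `2^ω₁` which is not dually
discrete (and is hereditarily Lindelöf and hereditarily separable). -/
theorem result :
    (∃ (P : Type) (_ : Preorder P), Nonempty P ∧ ∀ p : P,
      p ∈ OmegaOnePreserved P ∧ p ∈ CHHolds P) ∧
    ((ℵ₁ : Cardinal.{0}) = 𝔠 →
      ∃ X : Set ((aleph 1).ord.ToType → Bool),
        HFCw X ∧ ¬ DuallyDiscrete X ∧ HereditarilyLindelofSpace X ∧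
        (∀ t : Set X, ∃ c ⊆ t, c.Countable ∧ t ⊆ closure c) ∧
        ∃ U : X → Set X, (∀ x, IsOpen (U x) ∧ x ∈ U x) ∧
          ∀ (m : ℕ) (D : Fin m → Set X), (∀ j, DiscreteTopology (D j)) →
            (⋃ j, ⋃ x ∈ D j, U x) ≠ Set.univ) := by
  refine ⟨?_, fun h => HFCwNotDuallyDiscrete.result h.symm⟩
  · obtain ⟨P, i, h1, h2⟩ := exists_forcing
    exact ⟨P, i, h1, fun p => ⟨(h2 p).1, (h2 p).2.2⟩⟩

end Pool.Agent.Results.MP_63e8ca_gt.ForcedNotDuallyDiscrete
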